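import Pool.Agent.TH924.PC.Eig
import Pool.Agent.Q14.PCScale

set_option autoImplicit false

/-!
# Bad primes of positive proportion at all scales, for almost all members of a pencil

Let `L_q = L_0 + q L_1 + ⋯ + q^(d-1) L_(d-1) + q^d r(x)`, where the `L_k` are arbitrary
differential operators of order at most `n` with coefficients in `ℤ[x]` and `r` is a polynomial;
for `d = 1` this is `L_q = L_0 + q r(x)`, an operator `L_0` with an accessory parameter `q`.
A prime `p` is bad for `L_q` if the reduction modulo `p` does not have a full basis of rational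
solutions.  Modulo every prime at most `d p / n` classes of `q` are good.  With the large sieve and
the prime number theorem we show that for all but `O(X^(1-δ) (log X)^2)` integers `|q| ≤ X` more
than `(1 - d/n - ε) π(y)` of the primes `p ≤ y` are bad, at every scale `X^δ ≤ y ≤ X^(1-δ)`.
-/

namespace Pool.Agent.Results.MP_aa40d3_nt.BadPrimesAllScales

open Polynomial Finset

/-- `p` is a prime and the reduction modulo `p` of `∑ b i ∂^i` has a full basis of rational
solutions: `n` solutions in `F_p(x)` that are linearly independent over the constants. This is the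
condition on `p` in the problem. -/
def Full (n : ℕ) (b : Fin (n + 1) → ℤ[X]) (p : ℕ) : Prop :=
  ∃ _ : Fact p.Prime, ∃ D : Derivation ℤ (RatFunc (ZMod p)) (RatFunc (ZMod p)),
    D (RatFunc.X : RatFunc (ZMod p)) = 1 ∧
    ∃ y : Fin n → RatFunc (ZMod p),
      (∀ j : Fin n, ∑ i : Fin (n + 1),
          Polynomial.aeval (RatFunc.X : RatFunc (ZMod p)) (b i) * (⇑D)^[(i : ℕ)] (y j) = 0) ∧
      ∀ c : Fin n → RatFunc (ZMod p), (∀ j, D (c j) = 0) →
        ∑ j : Fin n, c j * y j = 0 → ∀ j, c j = 0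

/-- The coefficients of `L_q = ∑_{k < d} q^k L_k + q^d r`, where `L_k = ∑ b k i ∂^i`. -/
noncomputable def family {n d : ℕ} (b : Fin d → Fin (n + 1) → ℤ[X]) (r : ℤ[X]) (q : ℤ) :
    Fin (n + 1) → ℤ[X] :=
  fun i => (∑ k : Fin d, C (q ^ (k : ℕ)) * b k i) + if i = 0 then C (q ^ d) * r else 0

open Classical in
/-- The number of the bad primes `p ≤ y` of `∑ b i ∂^i`: the reduction modulo `p` does not have a
full basis of rational solutions. -/
noncomputable def badCount (n : ℕ) (b : Fin (n + 1) → ℤ[X]) (y : ℝ) : ℕ :=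
  ((Icc 1 ⌊y⌋₊).filter fun p => p.Prime ∧ ¬ Full n b p).card

/-- Let `d, n ≥ 1`, `ε > 0` and `0 < δ ≤ 1/2`.  Then there is a constant `C` such that for all
operators `L_0, …, L_(d-1)` of order at most `n` over `ℤ[x]`, all polynomials `r` that are not
divisible by any prime `p > N₀`, and all `X ≥ 2`, all but at most `C X^(1-δ) (log X)^2` of the
integers `q` with `|q| ≤ X` have the following property: at every scale `y` with
`X^δ ≤ y ≤ X^(1-δ)`, more than `(1 - d/n - ε) π(y)` of the primes `p ≤ y` are bad for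
`L_q = L_0 + q L_1 + ⋯ + q^(d-1) L_(d-1) + q^d r`. -/
theorem result (n d : ℕ) (hd : 1 ≤ d) (hn : 1 ≤ n) (ε δ : ℝ) (hε : 0 < ε) (hδ : 0 < δ)
    (hδ1 : δ ≤ 1 / 2) (N₀ : ℕ) :
    ∃ C : ℝ, ∀ (b : Fin d → Fin (n + 1) → ℤ[X]) (r : ℤ[X]),
      (∀ p : ℕ, p.Prime → N₀ < p → ∃ i : ℕ, ¬ (p : ℤ) ∣ r.coeff i) →
      ∀ X : ℝ, 2 ≤ X →
        (Set.ncard {q : ℤ | |(q : ℝ)| ≤ X ∧ ∃ y : ℝ, X ^ δ ≤ y ∧ y ≤ X ^ (1 - δ) ∧
          (badCount n (family b r q) y : ℝ) ≤ (1 - d / n - ε) * Nat.primeCounting ⌊y⌋₊} : ℝ) ≤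
          C * X ^ (1 - δ) * (Real.log X) ^ 2 := by
  classical
  obtain ⟨C, hC⟩ := Pool.Agent.Q14.PCS.scales (n := n) (d := d) (P₁ := N₀) hn hε hδ hδ1
  refine ⟨C, fun b r hr X hX => ?_⟩
  have h := hC (fun p q => Full n (family b r q) p) ?_ X hX
  · convert h using 3
    ext q
    simp only [Set.mem_ofPred_eq]
    refine and_congr_right fun _ => exists_congr fun y => and_congr_right fun _ =>
      and_congr_right fun _ => ?_
    have h1 : ((Icc 1 ⌊y⌋₊).filter fun p => p.Prime ∧ Full n (family b r q) p).card +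
        badCount n (family b r q) y = Nat.primeCounting ⌊y⌋₊ := by
      rw [← Pool.Agent.TH924.PC.card_PP, badCount, ← card_union_of_disjoint]
      · congr 1
        ext p
        simp only [mem_union, mem_filter, mem_Icc, Pool.Agent.Helper923.HMertens.PP]
        tauto
      · rw [disjoint_left]
        intro p hp hp'
        rw [mem_filter] at hp hp'
        exact hp'.2.2 hp.2.2
    have h2 : ((((Icc 1 ⌊y⌋₊).filter fun p => p.Prime ∧ Full n (family b r q) p).card : ℕ) : ℝ) +
        (badCount n (family b r q) y : ℝ) = Nat.primeCounting ⌊y⌋₊ := by exact_mod_cast h1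
    have h3 : (1 - (d : ℝ) / n - ε) * (Nat.primeCounting ⌊y⌋₊ : ℝ) =
      Nat.primeCounting ⌊y⌋₊ - ((d : ℝ) / n + ε) * Nat.primeCounting ⌊y⌋₊ := by ring
    rw [h3]
    constructor
    · intro h4
      linarith
    · intro h4
      linarith
  · intro p hp hpN T hT
    have hpF : Fact p.Prime := ⟨hp⟩
    refine Pool.Agent.TH924.PC.classes_le hd b r ?_ T ?_
    · obtain ⟨i, hi⟩ := hr p hp hpN
      intro h0
      apply hi
      have h1 := congrArg (fun P => P.coeff i) h0
      simp only [coeff_map, eq_intCast, coeff_zero] at h1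
      exact (ZMod.intCast_zmod_eq_zero_iff_dvd _ _).1 h1
    · intro t ht
      obtain ⟨q, hq, hF⟩ := hT t ht
      obtain ⟨_, hF'⟩ := hF
      exact ⟨q, hq, hF'⟩

end Pool.Agent.Results.MP_aa40d3_nt.BadPrimesAllScales
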