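import Pool.Agent.Q183.PC.FewOp

set_option autoImplicit false

open Polynomial Pool.Agent.W432.WB Pool.Agent.W432.HK Pool.Agent.Y227.SO Pool.Agent.TH571.PCV

/-!
# Grothendieck's conjecture for operators with few nontrivial exponents outside two points

Let `L = ∑ b k ∂ ^ k` be a Fuchsian operator of any order `n`, with any number of singular points and of
accessory parameters, whose exponents at all but two of the singular points are, with at most `k`
exceptions, congruent modulo `ℤ` to one number for each point. (For `k = 1` these are essentially the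
hypergeometric operators, for which the conjecture is known.)

Proof. If infinitely many primes in the class of `v` modulo `N` are good, and `a v = -1`, then the
multiples by `a` of the exponents satisfy the Weyl inequalities (`weyl_next_op`, a theorem of the starting
files). For operators there is no duality in a fixed class, so the inequalities for the negatives are
taken from the class of `-v`. As in the starting result `FewNontrivialExponents` of `MP_5e5ff1_ag` on
Fuchsian systems, the two families of inequalities bound the variance of a step function with steps at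
the exponents at the two points by `k ^ 2 / 4`, while its average over the units is `form / 12`.
-/

namespace Pool.Agent.Results.MP_aa40d3_nt.FewNontrivialExponents

/-- **Operators of any order with few nontrivial exponents outside two points.**

Let `L = ∑ b j ∂ ^ j`, `b j` in `ℤ[x]`, be a Fuchsian operator of order `n` whose finite singular points
are among `m ≥ 1` algebraic numbers `α j`, with rational exponents `lam j.castSucc l` at `α j` and
`lam (Fin.last m) l` at infinity, and arbitrary accessory parameters. Let `i₁`, `i₂` be two of the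
`m + 1` points and let `k < n` be at least the number of the exponents at the other points `i` which are
not congruent to `g i` modulo `ℤ` (counted together for all the other points). Let `G` be the sum of
these `g i` and let `Q` be the value of the form `form` at the exponents `x l` at `i₁` and `y l + G`,
`y l` the exponents at `i₂`:
`Q = ∑ gam (x l - x l') + ∑ gam (y l - y l') - 2 ∑ gam (x l + y l' + G)`, where `gam q` is the product
of the numbers `-p` for the prime divisors `p` of the denominator `d` of `q`, divided by `d ^ 2`.

Then for every common denominator `N` of the exponents and the `g i` there are at least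
`φ(N) (Q - 3 k ^ 2) / (6 (n ^ 2 - k ^ 2))` residue classes modulo `N`, prime to `N`, such that for all
large primes `p` in these classes the reduction of `L` modulo `p` does not have a full basis of
rational solutions. In particular, if `Q > 3 k ^ 2`, then `L` does not satisfy the hypothesis of
Grothendieck's conjecture.

Example (`form_prime` in `TH571/PCV/Thrice`): if `N` is a prime number, the `x l` are distinct modulo
`ℤ`, and so are the `y l`, and no `x l + y l' + G` is an integer, then `Q = 2 n (1 + 1 / N)`, and
`2 n ≥ 3 k ^ 2 > 0` is enough. -/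
theorem result {m n : ℕ} (hm : 1 ≤ m) (b : Fin (n + 1) → ℤ[X]) (α : Fin m → AlgebraicClosure ℚ)
    (lam : Fin (m + 1) → Fin n → ℚ)
    (hF : FuchsianWith b α (fun j => lam j.castSucc) (fun l => -lam (Fin.last m) l))
    (i₁ i₂ : Fin (m + 1)) (h12 : i₁ ≠ i₂) (g : Fin (m + 1) → ℚ) (k : ℕ) (hkn : k < n)
    (hk : ∑ i ∈ (Finset.univ.erase i₁).erase i₂,
      (Finset.univ.filter fun l => (lam i l - g i).den ≠ 1).card ≤ k)
    (Q : ℚ) (hQ : Q = form (lam i₁)
      (fun l => lam i₂ l + ∑ i ∈ (Finset.univ.erase i₁).erase i₂, g i)) :
    (∀ N : ℕ, 0 < N → (∀ i l, ∃ z : ℤ, (N : ℚ) * lam i l = z) →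
      (∀ i ∈ (Finset.univ.erase i₁).erase i₂, ∃ z : ℤ, (N : ℚ) * g i = z) →
      BadPrimes b N (((Q - 3 * (k : ℚ) ^ 2) / (6 * ((n : ℚ) ^ 2 - (k : ℚ) ^ 2)) : ℚ) : ℝ)) ∧
    (3 * (k : ℚ) ^ 2 < Q → ¬ Cond b) := by
  subst hQ
  refine ⟨fun N hN hNlam hNg =>
    Pool.Agent.Q183.PC.few_op hm hF i₁ i₂ h12 g k hkn hk N hN hNlam hNg, fun hQ => ?_⟩
  obtain ⟨N, hN, hNlam, hNg⟩ : ∃ N : ℕ, 0 < N ∧ (∀ i l, ∃ z : ℤ, (N : ℚ) * lam i l = z) ∧
      ∀ i, ∃ z : ℤ, (N : ℚ) * g i = z := by
    refine ⟨(∏ i, ∏ l, (lam i l).den) * ∏ i, (g i).den, ?_, ?_, ?_⟩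
    · refine Nat.mul_pos (Finset.prod_pos fun i _ => Finset.prod_pos fun l _ => ?_)
        (Finset.prod_pos fun i _ => ?_)
      · exact (lam i l).den_pos
      · exact (g i).den_pos
    · intro i l
      have h1 : (lam i l).den ∣ (∏ i, ∏ l, (lam i l).den) * ∏ i, (g i).den :=
        Dvd.dvd.mul_right
          ((Finset.dvd_prod_of_mem (fun l => (lam i l).den) (Finset.mem_univ l)).trans
          (Finset.dvd_prod_of_mem (fun i => ∏ l, (lam i l).den) (Finset.mem_univ i))) _
      obtain ⟨c, hc⟩ := h1
      refine ⟨c * (lam i l).num, ?_⟩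
      rw [hc]
      push_cast
      have := Rat.den_mul_eq_num (lam i l)
      rw [mul_comm ((lam i l).den : ℚ) c, mul_assoc, this]
    · intro i
      have h1 : (g i).den ∣ (∏ i, ∏ l, (lam i l).den) * ∏ i, (g i).den :=
        Dvd.dvd.mul_left (Finset.dvd_prod_of_mem (fun i => (g i).den) (Finset.mem_univ i)) _
      obtain ⟨c, hc⟩ := h1
      refine ⟨c * (g i).num, ?_⟩
      rw [hc]
      push_cast
      have := Rat.den_mul_eq_num (g i)
      rw [mul_comm ((g i).den : ℚ) c, mul_assoc, this]
  have h := Pool.Agent.Q183.PC.few_op hm hF i₁ i₂ h12 g k hkn hk N hN hNlam (fun i _ => hNg i)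
  have hkn' : (k : ℚ) < n := by exact_mod_cast hkn
  have hpos : (0 : ℚ) < (n : ℚ) ^ 2 - (k : ℚ) ^ 2 := by
    have : (0 : ℚ) ≤ k := Nat.cast_nonneg k
    nlinarith
  have hε : (0 : ℚ) < (form (lam i₁)
      (fun l => lam i₂ l + ∑ i ∈ (Finset.univ.erase i₁).erase i₂, g i) - 3 * (k : ℚ) ^ 2) /
        (6 * ((n : ℚ) ^ 2 - (k : ℚ) ^ 2)) := div_pos (by linarith) (by positivity)
  exact Pool.Agent.Q183.PC.not_cond_of_class hN
    (Pool.Agent.Q183.PC.class_of_badPrimes hN (by exact_mod_cast hε) h)

end Pool.Agent.Results.MP_aa40d3_nt.FewNontrivialExponents
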