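import Pool.Agent.Q183.PC.Many

set_option autoImplicit false

open Polynomial Finset Pool.Agent.W432.WB Pool.Agent.W432.HK Pool.Agent.Y227.SO

/-!
# Operators of any order with many exponents modulo `ℤ`

The order `n` of the operator, the number of the singular points and the accessory parameters are
arbitrary. Let the exponents be in `(1/N) ℤ`, and let `s x` be the number of exponents modulo `ℤ` at
the point `x`. The theorem covers the nonresonant operators with `∑ s x > N`, where the sum is over
the points with `s x ≥ 2`; there may be any number of further singular points with exponents in one
class modulo `ℤ`. Examples:
* order two, more than `N / 2` points with a non-integral difference of the exponents;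
* order `2 k`, exponents in the classes of `a` and `a + 1/7` modulo `ℤ` at each of five points;
* three points, `s 0 + s 1 + s ∞ > N`, and any number of points with integral exponents.

Proof. The additive combinatorics of the result `ManySingularPoints` of `MP_ba03d2_ag` (library
`TH141/PC`) shows that after multiplication by a unit `a` modulo `N` the exponents lift modulo `ℤ` to
numbers all of whose sums, one exponent at each point, are strictly between `c` and `c + 1`, `c` an
integer. Then the multiples of the exponents by `a` violate a Weyl inequality
(`Pool.Agent.Q183.PC.not_weyl_of_small`), and the operator version of these inequalities (starting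
library `Y227/SO`, `W432/HK`) gives residue classes of bad primes.
-/

namespace Pool.Agent.Results.MP_aa40d3_nt.ManyExponents

/-- **Operators of any order with many exponents modulo `ℤ`.**

For all `m, n ≥ 1` there is `ε > 0` with the following property. Let `L = ∑ b k ∂ ^ k` be an operator
of order `n` with integral polynomial coefficients, Fuchsian with finite singular points among the `m`
algebraic numbers `α j`, with exponents `E (some j) l / N` at `α j` and `E none l / N` at infinity
(`-E none l / N` are the degrees of the solutions there), `l < n`, `N > 1`. Assume that the difference
of two of the integers `E x l` at the same point `x` is prime to `N` or divisible by `N` (this is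
automatic if `N` is a prime number), and that there is no resonance: no sum of exponents, one at each
point, is an integer. Let `s x` be the number of exponents at `x` modulo `ℤ`, and assume that the sum
of the `s x`, over the points with `s x ≥ 2`, is larger than `N`.

Then there are at least `ε φ(N)` (so at least one) residue classes modulo `N` such that for all large
primes `p` in these classes the reduction of `L` modulo `p` does not have a full basis of rational
solutions. In particular `L` does not satisfy the condition that almost all reductions have a full
basis of rational solutions, and the open implication of Grothendieck's conjecture holds for `L`. -/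
theorem result (m n : ℕ) (hm : 1 ≤ m) (hn : 1 ≤ n) : ∃ ε : ℝ, 0 < ε ∧
    ∀ (b : Fin (n + 1) → ℤ[X]) (α : Fin m → AlgebraicClosure ℚ) (N : ℕ) (_hN : 1 < N)
      (E : Option (Fin m) → Fin n → ℤ),
      FuchsianWith b α (fun j l => (E (some j) l : ℚ) / N) (fun l => -(E none l : ℚ) / N) →
      (∀ x l l', IsCoprime (E x l - E x l') (N : ℤ) ∨ (N : ℤ) ∣ E x l - E x l') →
      (∀ κ : Option (Fin m) → Fin n, ¬ (N : ℤ) ∣ ∑ x, E x (κ x)) →
      ∀ s : Option (Fin m) → ℕ, (∀ x, (univ.image fun l => (E x l : ZMod N)).card = s x) →
      N < ∑ x ∈ univ.filter (fun x => 2 ≤ s x), s x →
      BadPrimes b N ε ∧ ¬ Cond b :=
  Pool.Agent.Q183.PC.many m n hm hn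

end Pool.Agent.Results.MP_aa40d3_nt.ManyExponents
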