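import Pool.Agent.Y227.SO.Density
import Pool.Agent.Y227.RT.Final

set_option autoImplicit false

open Polynomial Pool.Agent.W432.WB Pool.Agent.W432.TC Pool.Agent.W432.HK Pool.Agent.Y227.SS
open Pool.Agent.Y227.SO Pool.Agent.Y227.RT

/-!
# Operators of order two: the exceptional families of exponent differences of codimension two

The starting result `StableDensity` of this problem says, for operators of order two, that the
exponents of an irreducible operator with few bad primes are on finitely many torsion cosets of
codimension at least two modulo the Fuchs relation, without saying which cosets of codimension two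
occur. Here they are determined: they are the families `Splits` and `HalfSums`, and all the other
exponent differences are on finitely many cosets of codimension at least three.

Proof. By `StableDensity` all the multiples of the exponents by integers prime to `N` are the weights
of stable parabolic bundles of rank two; the classification of the families of exponent differences
with this property (`Pool.Agent.Y227.RT.families`) is the arithmetic part of the result
`RankTwoFamilies` of `MP_ba03d2_ag` on Fuchsian systems of rank two.
-/

namespace Pool.Agent.Results.MP_aa40d3_nt.OrderTwoFamilies

/-- **Second order operators: Schwarz's list up to codimension three, for any number of singular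
points and arbitrary accessory parameters.**

For every `m ≥ 1` there are `ε > 0` and a finite set `𝒟` of torsion cosets of codimension at least
three (three independent relations) in the torus `(ℝ/ℤ) ^ (m + 1)` of the exponent differences, with
the following property. Let `L = b 2 ∂² + b 1 ∂ + b 0` be an operator with integral polynomial
coefficients which is irreducible over the algebraic numbers, and `α j` distinct algebraic numbers,
`j < m`. For rational `lam j l` and `phi l` let `θ = theta lam phi` be the differences
`lam j 0 - lam j 1`, `phi 0 - phi 1`.

(1) If `L` is Fuchsian with finite singular points among the `α j`, with exponents `lam j l` at `α j`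
and degrees `phi l` of the solutions at infinity, with common denominator `N`, then one of the
following holds:
* there is a set of at least `ε φ(N)` residue classes modulo `N` such that for all large primes `p` in
  these classes the reduction of `L` modulo `p` does not have a full basis of rational solutions;
* (`Splits`) the singular points (with infinity) are divided into two complementary sets, each with at
  least two points, such that, for suitable signs, the sums of the `± θ i` over both sets are integers;
* (`HalfSums`) there are two disjoint nonempty sets of singular points, together not all of them, such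
  that, for suitable signs, the sums of the `± θ i` over both sets are in `1/2 + ℤ`;
* `θ` is on one of the cosets in `𝒟`.

(2) If the zeros of `b 2 ≠ 0` are among the `α j` and if for arbitrarily large `X` there are fewer than
`ε π(X)` primes `p ≤ X` for which the reduction of `L` modulo `p` does not have a full basis of rational
solutions, then `L` is Fuchsian with rational exponents, and one of the last three statements holds.

For `m = 2` there is no splitting, `HalfSums` is the dihedral family (two of the three differences are
in `1/2 + ℤ`), and the cosets in `𝒟` are finitely many triples modulo `ℤ`; for `m = 3` (Heun's equation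
and its relatives) they are points and one-parameter families. -/
theorem result (m : ℕ) (hm : 1 ≤ m) :
    ∃ (ε : ℝ) (𝒟 : Finset (AddSubgroup (Option (Fin m) → ℤ) × (Option (Fin m) → ℚ))), 0 < ε ∧
      (∀ C ∈ 𝒟, ∃ k : Fin 3 → Option (Fin m) → ℤ, LinearIndependent ℤ k ∧ ∀ i, k i ∈ C.1) ∧
      ∀ (b : Fin (2 + 1) → ℤ[X]) (α : Fin m → AlgebraicClosure ℚ), ¬ Reducible b →
        (∀ (lam : Fin m → Fin 2 → ℚ) (phi : Fin 2 → ℚ) (N : ℕ), FuchsianWith b α lam phi →
          CommonDen lam phi N → BadPrimes b N ε ∨ Splits (theta lam phi) ∨
            HalfSums (theta lam phi) ∨ ∃ C ∈ 𝒟, InCoset C.1 C.2 (fun i => (theta lam phi i : ℝ))) ∧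
        (ZerosAmong b α → FewBad b ε → ∃ (lam : Fin m → Fin 2 → ℚ) (phi : Fin 2 → ℚ),
          FuchsianWith b α lam phi ∧ (Splits (theta lam phi) ∨ HalfSums (theta lam phi) ∨
            ∃ C ∈ 𝒟, InCoset C.1 C.2 (fun i => (theta lam phi i : ℝ)))) := by
  obtain ⟨ε, 𝒟₀, hε, -, hmain⟩ := density m 2 hm (by norm_num)
  obtain ⟨𝒟, h𝒟, hfam⟩ := families m hm
  refine ⟨ε, 𝒟, hε, h𝒟, fun b α hirr => ⟨fun lam phi N hF hN => ?_, fun hz hfew => ?_⟩⟩
  · rcases (hmain b α).1 lam phi N hF hN with h | ⟨h, -⟩
    · exact Or.inl h
    · exact Or.inr (hfam lam phi N hN.1 fun a ha => (h a ha).2.2 hirr)
  · obtain ⟨lam, phi, hF, ⟨N, hN⟩, hgood, -⟩ := (hmain b α).2 hz hfew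
    exact ⟨lam, phi, hF, hfam lam phi N hN.1 fun a ha => (hgood N hN a ha).2.2 hirr⟩

end Pool.Agent.Results.MP_aa40d3_nt.OrderTwoFamilies
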